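import Mathlib

/-!
A Tychonoff space in which One wins the compact-open k-cover game, does not win the finite-open
game, and has no predetermined win in the compact-open k-cover game:
the product of the one-point Lindeloefication of an uncountable discrete space with `[0,1]`.
-/

namespace Pool.Agent.Results.MP_c6d0b8_gt.KCoverGame

open Set Filter Topology MeasureTheory

/-- The full history of the first `n` rounds: One's moves `K i` and Two's answers `U i`. -/
def history {X : Type} (K U : ℕ → Set X) (n : ℕ) : List (Set X × Set X) :=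
  List.ofFn fun i : Fin n => (K i, U i)

/-- One has a winning strategy in the game of length `ω` in which One plays sets satisfying
`legal`, Two answers with open supersets `U n`, and One wins iff `win U`: there is a rule `σ`
choosing One's move from the full history such that in every play in which One follows `σ` and
Two answers with open supersets, all moves of One are legal and One wins. -/
def OneWins {X : Type} [TopologicalSpace X] (legal : Set X → Prop)
    (win : (ℕ → Set X) → Prop) : Prop :=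
  ∃ σ : List (Set X × Set X) → Set X, ∀ K U : ℕ → Set X,
    (∀ n, K n = σ (history K U n)) → (∀ n, IsOpen (U n) ∧ K n ⊆ U n) →
      (∀ n, legal (K n)) ∧ win U

/-- One has a winning predetermined strategy: a fixed sequence of legal moves against which every
sequence of legal answers of Two loses. -/
def OneWinsPre {X : Type} [TopologicalSpace X] (legal : Set X → Prop)
    (win : (ℕ → Set X) → Prop) : Prop :=
  ∃ K : ℕ → Set X, (∀ n, legal (K n)) ∧
    ∀ U : ℕ → Set X, (∀ n, IsOpen (U n) ∧ K n ⊆ U n) → win U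

/-- One-point Lindeloefication of the discrete space of size continuum. -/
def Lind : Type := Option ℝ

/-- The extra point. -/
def Lind.inf : Lind := (none : Option ℝ)

instance Lind.top : TopologicalSpace Lind where
  IsOpen U := Lind.inf ∈ U → (Uᶜ).Countable
  isOpen_univ := by simp
  isOpen_inter := by
    intro s t hs ht h
    rw [compl_inter]
    exact (hs h.1).union (ht h.2)
  isOpen_sUnion := by
    intro S hS h
    obtain ⟨t, ht, hx⟩ := h
    exact (hS t ht hx).mono (compl_subset_compl.2 (subset_sUnion_of_mem ht))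

lemma Lind.isOpen_iff (U : Set Lind) : IsOpen U ↔ (Lind.inf ∈ U → (Uᶜ).Countable) := Iff.rfl

lemma Lind.isOpen_of_notMem {U : Set Lind} (h : Lind.inf ∉ U) : IsOpen U :=
  (Lind.isOpen_iff U).2 fun h' => (h h').elim

lemma Lind.isClosed_of_countable {D : Set Lind} (h : D.Countable) : IsClosed D := by
  rw [← isOpen_compl_iff, Lind.isOpen_iff]
  intro _
  simpa using h

lemma Lind.isClosed_of_mem {D : Set Lind} (hD : Lind.inf ∈ D) : IsClosed D := by
  rw [← isOpen_compl_iff]
  exact Lind.isOpen_of_notMem (by simpa using hD)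

instance Lind.t1 : T1Space Lind where
  t1 x := Lind.isClosed_of_countable (countable_singleton x)

instance Lind.t35 : T35Space Lind where
  completely_regular := (CompletelyRegularSpace.of_isTopologicalBasis_clopens (X := Lind) (by
    refine TopologicalSpace.isTopologicalBasis_of_isOpen_of_nhds (fun u hu => hu.isOpen) ?_
    intro a u ha hu
    by_cases h : Lind.inf ∈ u
    · exact ⟨u, ⟨Lind.isClosed_of_mem h, hu⟩, ha, Subset.rfl⟩
    · refine ⟨{a}, ⟨isClosed_singleton, Lind.isOpen_of_notMem ?_⟩, rfl, by simpa using ha⟩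
      intro h'
      rw [mem_singleton_iff] at h'
      exact h (h' ▸ ha))).completely_regular

lemma Lind.finite_of_isCompact {C : Set Lind} (hC : IsCompact C) : C.Finite := by
  by_contra hinf
  have h1 : (C \ {Lind.inf}).Infinite := Set.Infinite.sdiff hinf (finite_singleton _)
  obtain ⟨D, hDC, hDc, hDi⟩ := h1.exists_subset_countable_infinite
  have hD : Lind.inf ∉ D := fun h => (hDC h).2 rfl
  have hDK : IsCompact D :=
    hC.of_isClosed_subset (Lind.isClosed_of_countable hDc) (fun x hx => (hDC hx).1)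
  obtain ⟨t, -, ht⟩ := hDK.elim_nhds_subcover (fun x => {x}) (by
    intro x hx
    refine (Lind.isOpen_of_notMem ?_).mem_nhds rfl
    intro h'
    rw [mem_singleton_iff] at h'
    exact hD (h' ▸ hx))
  refine hDi (t.finite_toSet.subset ?_)
  intro x hx
  have := ht hx
  simp only [mem_iUnion, mem_singleton_iff] at this
  obtain ⟨y, hy, rfl⟩ := this
  exact hy

/-- The example. -/
abbrev Sp : Type := Lind × unitInterval

/-- Points of `Lind` whose fibre is not inside `U`. -/
def bad (U : Set Sp) : Set Lind := {a | ¬ ∀ t, (a, t) ∈ U}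

lemma bad_countable {U : Set Sp} (hU : IsOpen U) (h : ∀ t, (Lind.inf, t) ∈ U) :
    (bad U).Countable := by
  obtain ⟨u, v, hu, -, h1, h2, h3⟩ := generalized_tube_lemma
    (isCompact_singleton (x := Lind.inf)) (isCompact_univ (X := unitInterval)) hU (by
      rintro ⟨a, t⟩ ⟨ha, -⟩
      rw [mem_singleton_iff] at ha
      subst ha
      exact h t)
  refine ((Lind.isOpen_iff u).1 hu (h1 rfl)).mono ?_
  intro a ha hau
  exact ha fun t => h3 ⟨hau, h2 (mem_univ t)⟩

lemma exists_enum : ∃ e : Set Sp → ℕ → Lind, ∀ U, (bad U).Countable → bad U ⊆ range (e U) := by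
  have : Nonempty Lind := ⟨Lind.inf⟩
  have : ∀ U : Set Sp, ∃ f : ℕ → Lind, (bad U).Countable → bad U ⊆ range f := by
    intro U
    by_cases h : (bad U).Countable
    · obtain ⟨f, hf⟩ := countable_iff_exists_subset_range.1 h
      exact ⟨f, fun _ => hf⟩
    · exact ⟨fun _ => Lind.inf, fun h' => (h h').elim⟩
  choose e he using this
  exact ⟨e, he⟩

lemma one_wins : OneWins (X := Sp) (fun K => K.Nonempty ∧ IsCompact K)
    (fun U => ∀ C, IsCompact C → ∃ n, C ⊆ U n) := by
  obtain ⟨e, he⟩ := exists_enum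
  let F : List (Set Sp × Set Sp) → Set Lind := fun h =>
    {Lind.inf} ∪ ⋃ p ∈ {p | p ∈ h}, e p.2 '' Iio h.length
  have hF : ∀ h, (F h).Finite := fun h =>
    (finite_singleton _).union
      (Finite.biUnion (List.finite_toSet h) fun p _ => (finite_Iio _).image _)
  refine ⟨fun h => F h ×ˢ univ, fun K U hK hU => ⟨fun n => ?_, fun C hC => ?_⟩⟩
  · rw [hK n]
    exact ⟨⟨(Lind.inf, 0), Or.inl rfl, mem_univ _⟩, (hF _).isCompact.prod isCompact_univ⟩
  · have hinf : ∀ n t, (Lind.inf, t) ∈ U n := fun n t => by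
      apply (hU n).2
      rw [hK n]
      exact ⟨Or.inl rfl, mem_univ _⟩
    have hfin : (Prod.fst '' C).Finite := Lind.finite_of_isCompact (hC.image continuous_fst)
    have key : ∀ a : Lind, ∀ᶠ n in atTop, ∀ t, (a, t) ∈ U n := by
      intro a
      by_cases ha : ∃ i, a ∈ bad (U i)
      · obtain ⟨i, hi⟩ := ha
        obtain ⟨j, hj⟩ := he _ (bad_countable (hU i).1 (hinf i)) hi
        filter_upwards [eventually_gt_atTop i, eventually_gt_atTop j] with n hin hjn t
        apply (hU n).2
        rw [hK n]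
        refine ⟨Or.inr ?_, mem_univ _⟩
        simp only [mem_iUnion]
        refine ⟨(K i, U i), ?_, j, ?_, hj⟩
        · exact List.mem_ofFn.2 ⟨⟨i, hin⟩, rfl⟩
        · simpa [history] using hjn
      · refine Eventually.of_forall fun n => ?_
        by_contra hn
        exact ha ⟨n, hn⟩
    obtain ⟨n, hn⟩ := ((eventually_all_finite hfin).2 fun a _ => key a).exists
    exact ⟨n, fun p hp => hn p.1 ⟨p, hp, rfl⟩ p.2⟩

lemma exists_small (n : ℕ) (F : Set Sp) (hF : F.Finite) :
    ∃ V : Set ℝ, IsOpen V ∧ (∀ p ∈ F, (p.2 : ℝ) ∈ V) ∧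
      volume V ≤ (2⁻¹ : ENNReal) ^ n * (2⁻¹ * 2⁻¹) := by
  have h0 : volume ((fun p : Sp => (p.2 : ℝ)) '' F) = 0 := (hF.image _).measure_zero _
  have hpos : (0 : ENNReal) < (2⁻¹ : ENNReal) ^ n * (2⁻¹ * 2⁻¹) := by
    refine ENNReal.mul_pos (pow_ne_zero _ (by simp)) (mul_ne_zero (by simp) (by simp))
  obtain ⟨V, h1, h2, h3⟩ := ((fun p : Sp => (p.2 : ℝ)) '' F).exists_isOpen_lt_of_lt
    (μ := volume) _ (h0 ▸ hpos)
  exact ⟨V, h2, fun p hp => h1 ⟨p, hp, rfl⟩, h3.le⟩

lemma not_finite_open : ¬ OneWins (X := Sp) (fun F => F.Finite) (fun U => ⋃ n, U n = univ) := by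
  rintro ⟨σ, hσ⟩
  have : ∀ (n : ℕ) (F : Set Sp), ∃ V : Set ℝ, IsOpen V ∧ (∀ p ∈ F, (p.2 : ℝ) ∈ V) ∧
      (F.Finite → volume V ≤ (2⁻¹ : ENNReal) ^ n * (2⁻¹ * 2⁻¹)) := by
    intro n F
    by_cases hF : F.Finite
    · obtain ⟨V, h1, h2, h3⟩ := exists_small n F hF
      exact ⟨V, h1, h2, fun _ => h3⟩
    · exact ⟨univ, isOpen_univ, fun _ _ => mem_univ _, fun h => (hF h).elim⟩
  choose V hV1 hV2 hV3 using this
  let resp : ℕ → Set Sp → Set Sp := fun n F => {p | (p.2 : ℝ) ∈ V n F}
  let H : ℕ → List (Set Sp × Set Sp) := fun n =>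
    Nat.rec [] (fun m h => h ++ [(σ h, resp m (σ h))]) n
  let K : ℕ → Set Sp := fun n => σ (H n)
  let U : ℕ → Set Sp := fun n => resp n (K n)
  have hH : ∀ n, history K U n = H n := by
    intro n
    induction n with
    | zero => rfl
    | succ n ih =>
      have : history K U (n + 1) = history K U n ++ [(K n, U n)] := by
        unfold history
        rw [List.ofFn_succ_last]
        simp
      rw [this, ih]
  obtain ⟨hleg, hwin⟩ := hσ K U (fun n => by rw [hH]) (fun n =>
    ⟨(hV1 n (K n)).preimage (continuous_subtype_val.comp continuous_snd), hV2 n (K n)⟩)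
  have hcov : Icc (0 : ℝ) 1 ⊆ ⋃ n, V n (K n) := by
    intro x hx
    have : ((Lind.inf, ⟨x, hx⟩) : Sp) ∈ ⋃ n, U n := by rw [hwin]; exact mem_univ _
    obtain ⟨n, hn⟩ := mem_iUnion.1 this
    exact mem_iUnion.2 ⟨n, hn⟩
  have h1 : volume (Icc (0 : ℝ) 1) ≤ ∑' n : ℕ, (2⁻¹ : ENNReal) ^ n * (2⁻¹ * 2⁻¹) :=
    (measure_mono hcov).trans ((measure_iUnion_le _).trans
      (ENNReal.tsum_le_tsum fun n => hV3 n (K n) (hleg n)))
  rw [ENNReal.tsum_mul_right, ENNReal.tsum_geometric, ENNReal.one_sub_inv_two, inv_inv,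
    ← mul_assoc, ENNReal.mul_inv_cancel (by simp) (by simp), one_mul] at h1
  simp only [Real.volume_Icc, sub_zero, ENNReal.ofReal_one] at h1
  exact absurd h1 (by simp)

lemma not_pre : ¬ OneWinsPre (X := Sp) (fun K => K.Nonempty ∧ IsCompact K)
    (fun U => ∀ C, IsCompact C → ∃ n, C ⊆ U n) := by
  rintro ⟨K, hK, hwin⟩
  have hc : (⋃ n, Prod.fst '' K n).Countable :=
    countable_iUnion fun n =>
      (Lind.finite_of_isCompact ((hK n).2.image continuous_fst)).countable
  have : ∃ a : Lind, a ∉ ⋃ n, Prod.fst '' K n := by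
    by_contra h
    push Not at h
    have h1 : (univ : Set Lind).Countable := hc.mono fun a _ => h a
    have h2 : Countable (Option ℝ) := countable_univ_iff.1 h1
    have h3 : Countable ℝ := (Option.some_injective ℝ).countable
    exact not_countable (α := ℝ) h3
  obtain ⟨a, ha⟩ := this
  obtain ⟨n, hn⟩ := hwin (fun _ => {p | p.1 ≠ a}) (fun n =>
    ⟨isOpen_ne.preimage continuous_fst, fun p hp h =>
      ha (mem_iUnion.2 ⟨n, p, hp, h⟩)⟩) {(a, 0)} isCompact_singleton
  exact hn (mem_singleton _) rfl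

theorem result :
    ∃ (X : Type) (_ : TopologicalSpace X), T35Space X ∧
      OneWins (X := X) (fun K => K.Nonempty ∧ IsCompact K)
        (fun U => ∀ C, IsCompact C → ∃ n, C ⊆ U n) ∧
      ¬ OneWins (X := X) (fun F => F.Finite) (fun U => ⋃ n, U n = Set.univ) ∧
      ¬ OneWinsPre (X := X) (fun K => K.Nonempty ∧ IsCompact K)
        (fun U => ∀ C, IsCompact C → ∃ n, C ⊆ U n) :=
  ⟨Sp, inferInstance, inferInstance, one_wins, not_finite_open, not_pre⟩

end Pool.Agent.Results.MP_c6d0b8_gt.KCoverGame
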